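import Mathlib

/-!
Definitions for the hand-ins on the number of components of moduli spaces of surfaces:
compact complex surfaces with ample canonical bundle and their unramified covers.
-/

namespace Pool.Agent.P.MP_ab0431_ag

open scoped Manifold ContDiff

/-- Complex 2-space, the model of the charts. -/
abbrev C2 := Fin 2 → ℂ

/-- `σ` is a holomorphic section of the `m`-th power of the canonical bundle: in the chart `e`
with coordinates `z₁, z₂` it is `σ e` times the `m`-th power of `dz₁ ∧ dz₂`. -/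
def IsForm (X : Type) [TopologicalSpace X] [ChartedSpace C2 X] (m : ℕ)
    (σ : OpenPartialHomeomorph X C2 → C2 → ℂ) : Prop :=
  (∀ e ∈ atlas C2 X, DifferentiableOn ℂ (σ e) e.target) ∧
    ∀ e ∈ atlas C2 X, ∀ e' ∈ atlas C2 X, ∀ x ∈ e.source ∩ e'.source,
      σ e (e x) = σ e' (e' x) * (fderiv ℂ (e' ∘ e.symm) (e x)).det ^ m

/-- The canonical bundle is ample: for some `m > 0` finitely many sections of its `m`-th power
have no common zero and define an injective immersion into projective space. -/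
def KAmple (X : Type) [TopologicalSpace X] [ChartedSpace C2 X] : Prop :=
  ∃ (m N : ℕ) (σ : Fin N → OpenPartialHomeomorph X C2 → C2 → ℂ), 0 < m ∧
    (∀ i, IsForm X m (σ i)) ∧ ∀ e ∈ atlas C2 X, ∀ x ∈ e.source, (∃ i, σ i e (e x) ≠ 0) ∧
      (∀ (v : C2) (c : ℂ), (∀ i, fderiv ℂ (σ i e) (e x) v = c * σ i e (e x)) → v = 0) ∧
      ∀ e' ∈ atlas C2 X, ∀ y ∈ e'.source, ∀ c : ℂ, (∀ i, σ i e (e x) = c * σ i e' (e' y)) → x = y

/-- A compact connected complex surface with ample canonical bundle. -/
structure Surf where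
  X : Type
  [top : TopologicalSpace X]
  [cs : ChartedSpace C2 X]
  mfd : IsManifold 𝓘(ℂ, C2) ω X
  t2 : T2Space X
  cpt : CompactSpace X
  conn : ConnectedSpace X
  amp : KAmple X

attribute [instance] Surf.top Surf.cs

/-- `Y` is a holomorphic unramified cover of `X` with `d` sheets. -/
def IsCover (Y X : Surf) (d : ℕ) : Prop :=
  ∃ p : Y.X → X.X, IsCoveringMap p ∧ MDifferentiable 𝓘(ℂ, C2) 𝓘(ℂ, C2) p ∧
    ∀ x, Nat.card (p ⁻¹' {x}) = d

end Pool.Agent.P.MP_ab0431_ag
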